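import Pool.Agent.H44.SA3

open MeasureTheory Pool.Agent.H44.SA

namespace Pool.Agent.Results.MP_9a1bf0_pr.Q1False

theorem result : ¬ ∃ μ : Measure ℝ, IsProbabilityMeasure μ ∧ Integrable (fun x => x) μ ∧
    ∫ x, x ∂μ = 1 ∧ ∀ g : BoundedContinuousFunction ℝ ℝ, Filter.Tendsto
      (fun d : ℕ => ∫ U, g (2 ^ d * solidAngle d U) ∂(Measure.pi fun _ : Fin d => sphLaw d))
      Filter.atTop (nhds (∫ x, g x ∂μ)) :=
  no_limit

end Pool.Agent.Results.MP_9a1bf0_pr.Q1False
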